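import Mathlib
import Pool.Agent.Helper6.AP.Comp

/-!
Problem MP_0462fc_lc: monotonicity with step `q` of the growth function is decidable for D0L systems
in which the periods of the letters divide `q` (any number of letters); for `q = 1`: monotonicity is
decidable for aperiodic D0L systems.
-/

set_option autoImplicit false

namespace Pool.Agent.Results.MP_0462fc_lc.AperiodicStep

/-- The D0L system `s.1 = (words h(0), h(1), ...; axiom w)` (letters are natural numbers, a letter
without a word is erased) has the words `hⁿ(w)`. The set of the pairs (system, `q`) with the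
following two properties is computable: (i) for every letter `a` that occurs in some `hᵐ(w)` and in
some `hⁿ(a)`, `n > 0`, every common divisor of the numbers `n > 0` such that `a` occurs in `hⁿ(a)`
divides `q`; (ii) `|hⁿ(w)| ≤ |hⁿ⁺q(w)|` for all `n`. -/
theorem result :
    ComputablePred (fun s : (List (List ℕ) × List ℕ) × ℕ =>
      (∀ a : ℕ,
        (∃ m : ℕ, a ∈ (fun w : List ℕ => w.flatMap (fun b => s.1.1.getD b []))^[m] s.1.2) →
        (∃ n : ℕ, 0 < n ∧
          a ∈ (fun w : List ℕ => w.flatMap (fun b => s.1.1.getD b []))^[n] [a]) →
        ∀ d : ℕ, (∀ n : ℕ, 0 < n →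
          a ∈ (fun w : List ℕ => w.flatMap (fun b => s.1.1.getD b []))^[n] [a] → d ∣ n) →
            d ∣ s.2) ∧
      ∀ n : ℕ,
        ((fun w : List ℕ => w.flatMap (fun b => s.1.1.getD b []))^[n] s.1.2).length ≤
          ((fun w : List ℕ => w.flatMap (fun b => s.1.1.getD b []))^[n + s.2] s.1.2).length) := by
  exact Pool.Agent.Helper6.AP.step_mono

end Pool.Agent.Results.MP_0462fc_lc.AperiodicStep
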