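import Mathlib
import Pool.Agent.Helper49.DX.Rec
import Pool.Agent.Helper73.DM.PosFive

/-!
Problem MP_0462fc_lc: monotonicity of the growth function is decidable for D0L systems with at
most eight recurrent letters and any number of other letters.
-/

set_option autoImplicit false

namespace Pool.Agent.Results.MP_0462fc_lc.EightRecurrent

open Pool.Agent.Helper73.DM Pool.Agent.Helper49.DX

/-- The D0L system `p = (words h(0), h(1), ...; axiom)` (letters are natural numbers, a letter
without a word is erased) has the words `hⁿ(ω)`. A letter `a` is recurrent if it occurs in some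
word `hⁱ(ω)` and in some `hʲ(a)`, `j ≥ 1`. The set of the D0L systems with at most eight recurrent
letters and monotonic growth function is computable. -/
theorem result :
    ComputablePred (fun p : List (List ℕ) × List ℕ =>
      (∃ F : Finset ℕ, F.card ≤ 8 ∧ ∀ a i j : ℕ,
        a ∈ (fun w : List ℕ => w.flatMap (fun b => p.1.getD b []))^[i] p.2 →
        a ∈ (fun w : List ℕ => w.flatMap (fun b => p.1.getD b []))^[j + 1] [a] → a ∈ F) ∧
      ∀ n : ℕ, ((fun w : List ℕ => w.flatMap (fun a => p.1.getD a []))^[n] p.2).length ≤
          ((fun w : List ℕ => w.flatMap (fun a => p.1.getD a []))^[n + 1] p.2).length) :=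
  (rec_iff 8).1 nine_letters

end Pool.Agent.Results.MP_0462fc_lc.EightRecurrent
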