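import Mathlib
import Pool.Agent.Helper49.DX.Rec

/-!
Problem MP_0462fc_lc: for every `k`, monotonicity of the growth function is decidable for D0L
systems with at most `k + 3` recurrent letters (and any number of other letters) if and only if
positivity is decidable for integer linear recurrence sequences of order `k`.
-/

set_option autoImplicit false

namespace Pool.Agent.Results.MP_0462fc_lc.RecurrentShift

open Pool.Agent.Helper73.DM Pool.Agent.Helper49.DX

theorem lrs_rec {k : ℕ} (a u : Fin k → ℤ) (n : ℕ) :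
    lrs a u (n + k) = ∑ i : Fin k, a i * lrs a u (n + i) := by
  conv_lhs => rw [lrs]
  rw [dif_neg (by omega)]
  refine Finset.sum_congr rfl fun i _ => ?_
  congr 2
  omega

theorem lrs_init {k : ℕ} (a u : Fin k → ℤ) (i : Fin k) : lrs a u i = u i := by
  rw [lrs, dif_pos i.2]

theorem eq_lrs {k : ℕ} (a u : Fin k → ℤ) (x : ℕ → ℤ) (h0 : ∀ i : Fin k, x i = u i)
    (h1 : ∀ n : ℕ, x (n + k) = ∑ i : Fin k, a i * x (n + i)) : ∀ n, x n = lrs a u n := by
  intro n
  induction n using Nat.strong_induction_on with
  | _ n ih =>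
    by_cases h : n < k
    · have := h0 ⟨n, h⟩
      have h2 := lrs_init a u ⟨n, h⟩
      simp only at this h2
      rw [this, h2]
    · obtain ⟨m, rfl⟩ : ∃ m, n = m + k := ⟨n - k, by omega⟩
      rw [h1, lrs_rec]
      refine Finset.sum_congr rfl fun i _ => ?_
      rw [ih (m + i) (by have := i.2; omega)]

/-- The D0L system `p = (words h(0), h(1), ...; axiom)` (letters are natural numbers, a letter
without a word is erased) has the words `hⁿ(ω)`. A letter `a` is recurrent if it occurs in some
word `hⁱ(ω)` and in some `hʲ(a)`, `j ≥ 1`. For every `k` the following two sets are both computable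
or both not computable: (i) the D0L systems with at most `k + 3` recurrent letters whose growth
function is monotonic; (ii) the pairs (coefficients, initial values) of integers for which the
linear recurrence sequence of order `k` that they define is nonnegative. -/
theorem result (k : ℕ) :
    ComputablePred (fun p : List (List ℕ) × List ℕ =>
      (∃ F : Finset ℕ, F.card ≤ k + 3 ∧ ∀ a i j : ℕ,
        a ∈ (fun w : List ℕ => w.flatMap (fun b => p.1.getD b []))^[i] p.2 →
        a ∈ (fun w : List ℕ => w.flatMap (fun b => p.1.getD b []))^[j + 1] [a] → a ∈ F) ∧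
      ∀ n : ℕ, ((fun w : List ℕ => w.flatMap (fun a => p.1.getD a []))^[n] p.2).length ≤
          ((fun w : List ℕ => w.flatMap (fun a => p.1.getD a []))^[n + 1] p.2).length) ↔
    ComputablePred (fun q : (Fin k → ℤ) × (Fin k → ℤ) =>
      ∀ x : ℕ → ℤ, (∀ i : Fin k, x i = q.2 i) →
        (∀ n : ℕ, x (n + k) = ∑ i : Fin k, q.1 i * x (n + i)) → ∀ n : ℕ, 0 ≤ x n) := by
  have h : (fun q : (Fin k → ℤ) × (Fin k → ℤ) =>
      ∀ x : ℕ → ℤ, (∀ i : Fin k, x i = q.2 i) →
        (∀ n : ℕ, x (n + k) = ∑ i : Fin k, q.1 i * x (n + i)) → ∀ n : ℕ, 0 ≤ x n) = PosK k := by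
    funext q
    refine propext ⟨fun h n => ?_, fun h x h0 h1 n => ?_⟩
    · exact h (lrs q.1 q.2) (lrs_init q.1 q.2) (lrs_rec q.1 q.2) n
    · rw [eq_lrs q.1 q.2 x h0 h1 n]
      exact h n
  rw [h]
  exact ⟨fun h1 => rev k ((rec_iff (k + 3)).2 h1), fun h1 => (rec_iff (k + 3)).1 (fwd k h1)⟩

end Pool.Agent.Results.MP_0462fc_lc.RecurrentShift
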